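import Mathlib

set_option autoImplicit false

/-!
MP_120218_co, GL++: the Pluennecke part.
-/

open Finset Pointwise

namespace Pool.Agent.Helper28.GPP

section
variable {G : Type} [CommGroup G] [DecidableEq G]

/-- Petridis: for a minimiser of the growth ratio -/
theorem mul_pow_le {R B : Finset G}
    (h : ∀ R' ⊆ R, #(R * B) * #R' ≤ #(R' * B) * #R) (n : ℕ) :
    ((#(R * B ^ n) : ℕ) : ℝ) ≤ ((#(R * B) : ℝ) / (#R : ℝ)) ^ n * (#R : ℝ) := by
  obtain rfl | hR := R.eq_empty_or_nonempty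
  · simp
  have hR0 : (0 : ℝ) < (#R : ℝ) := by exact_mod_cast hR.card_pos
  induction n with
  | zero => simp
  | succ n ih =>
    refine le_of_mul_le_mul_right ?_ hR0
    have h1 : #(R * B ^ (n + 1)) * #R ≤ #(R * B) * #(B ^ n * R) := by
      have := pluennecke_petridis_inequality_mul (A := R) (B := B) (B ^ n) h
      have e : B ^ n * R * B = R * B ^ (n + 1) := by
        rw [pow_succ, mul_comm (B ^ n) R, mul_assoc]
      rwa [e] at this
    have h1' : ((#(R * B ^ (n + 1)) : ℕ) : ℝ) * (#R : ℝ) ≤ (#(R * B) : ℝ) * (#(B ^ n * R) : ℝ) := by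
      exact_mod_cast h1
    calc ((#(R * B ^ (n + 1)) : ℕ) : ℝ) * (#R : ℝ) ≤ (#(R * B) : ℝ) * (#(B ^ n * R) : ℝ) := h1'
      _ ≤ (#(R * B) : ℝ) * (((#(R * B) : ℝ) / (#R : ℝ)) ^ n * (#R : ℝ)) := by
          rw [mul_comm (B ^ n) R]
          exact mul_le_mul_of_nonneg_left ih (by positivity)
      _ = ((#(R * B) : ℝ) / (#R : ℝ)) ^ (n + 1) * (#R : ℝ) * (#R : ℝ) := by
          rw [pow_succ]
          field_simp

/-- every set contains a non-empty subset with small growth -/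
theorem exists_small {R B : Finset G} (hR : R.Nonempty) (K : ℝ)
    (hK : (#(R * B) : ℝ) ≤ K * (#R : ℝ)) (m : ℕ) :
    ∃ R' ⊆ R, R'.Nonempty ∧ (#(R' * B ^ m) : ℝ) ≤ K ^ m * (#R' : ℝ) := by
  have hR' : R ∈ R.powerset.erase ∅ := mem_erase_of_ne_of_mem hR.ne_empty (mem_powerset_self _)
  obtain ⟨U, hU, hUmin⟩ :=
    exists_min_image (R.powerset.erase ∅) (fun U ↦ (#(U * B) : ℝ) / (#U : ℝ)) ⟨R, hR'⟩
  rw [mem_erase, mem_powerset, ← nonempty_iff_ne_empty] at hU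
  obtain ⟨hU0, hUR⟩ := hU
  have hR0 : (0 : ℝ) < (#R : ℝ) := by exact_mod_cast hR.card_pos
  have hU0' : (0 : ℝ) < (#U : ℝ) := by exact_mod_cast hU0.card_pos
  refine ⟨U, hUR, hU0, ?_⟩
  have hmin : ∀ U' ⊆ U, #(U * B) * #U' ≤ #(U' * B) * #U := by
    intro U' hU'
    obtain rfl | hne := U'.eq_empty_or_nonempty
    · simp
    have hne' : (0 : ℝ) < (#U' : ℝ) := by exact_mod_cast hne.card_pos
    have := hUmin U' (mem_erase_of_ne_of_mem hne.ne_empty (mem_powerset.2 (hU'.trans hUR)))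
    rw [div_le_div_iff₀ hU0' hne'] at this
    exact_mod_cast this
  have h1 := mul_pow_le (R := U) (B := B) hmin m
  refine h1.trans ?_
  have h2 : (#(U * B) : ℝ) / (#U : ℝ) ≤ K := by
    refine (hUmin R hR').trans ?_
    rw [div_le_iff₀ hR0]
    exact hK
  have h3 : (0 : ℝ) ≤ (#(U * B) : ℝ) / (#U : ℝ) := by positivity
  exact mul_le_mul_of_nonneg_right (pow_le_pow_left₀ h3 h2 m) (by positivity)

/-- half of the set has small growth -/
theorem exists_half {A B : Finset G} (K : ℝ) (hK : (#(A * B) : ℝ) ≤ K * (#A : ℝ)) (hK0 : 0 ≤ K)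
    (m : ℕ) :
    ∃ A' ⊆ A, #A ≤ 2 * #A' ∧ (#(A' * B ^ m) : ℝ) ≤ (2 * K) ^ m * (#A' : ℝ) := by
  have hne : (A.powerset.filter (fun S => (#(S * B ^ m) : ℝ) ≤ (2 * K) ^ m * (#S : ℝ))).Nonempty := by
    refine ⟨∅, ?_⟩
    simp
  obtain ⟨S, hS, hSmax⟩ := exists_max_image _ (fun S => #S) hne
  rw [mem_filter, mem_powerset] at hS
  refine ⟨S, hS.1, ?_, hS.2⟩
  by_contra hcon
  push Not at hcon
  have hc : #(A \ S) + #S = #A := card_sdiff_add_card_eq_card hS.1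
  have hlt : #A < 2 * #(A \ S) := by omega
  have hRne : (A \ S).Nonempty := by
    rw [← card_pos]
    omega
  have hRK : (#((A \ S) * B) : ℝ) ≤ (2 * K) * (#(A \ S) : ℝ) := by
    have h1 : (#((A \ S) * B) : ℝ) ≤ (#(A * B) : ℝ) := by
      exact_mod_cast card_le_card (mul_subset_mul_right sdiff_subset)
    have h2 : (#A : ℝ) ≤ 2 * (#(A \ S) : ℝ) := by exact_mod_cast hlt.le
    calc (#((A \ S) * B) : ℝ) ≤ K * (#A : ℝ) := h1.trans hK
      _ ≤ K * (2 * (#(A \ S) : ℝ)) := mul_le_mul_of_nonneg_left h2 hK0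
      _ = (2 * K) * (#(A \ S) : ℝ) := by ring
  obtain ⟨R', hR', hR'ne, hR'le⟩ := exists_small hRne (2 * K) hRK m
  have hdisj : Disjoint S R' := by
    rw [Finset.disjoint_left]
    intro x hx hx'
    exact (mem_sdiff.1 (hR' hx')).2 hx
  have hmem : S ∪ R' ∈ A.powerset.filter
      (fun S => (#(S * B ^ m) : ℝ) ≤ (2 * K) ^ m * (#S : ℝ)) := by
    rw [mem_filter, mem_powerset]
    refine ⟨union_subset hS.1 (hR'.trans sdiff_subset), ?_⟩
    rw [union_mul, card_union_of_disjoint hdisj]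
    have h1 : (#(S * B ^ m ∪ R' * B ^ m) : ℝ) ≤ (#(S * B ^ m) : ℝ) + (#(R' * B ^ m) : ℝ) := by
      exact_mod_cast card_union_le _ _
    push_cast
    linarith [hS.2, hR'le]
  have h4 := hSmax _ hmem
  rw [card_union_of_disjoint hdisj] at h4
  have := hR'ne.card_pos
  omega

theorem card_mul_pow_mono {A B : Finset G} (hB : B.Nonempty) {a b : ℕ} (hab : a ≤ b) :
    #(A * B ^ a) ≤ #(A * B ^ b) := by
  obtain ⟨c, rfl⟩ := Nat.exists_eq_add_of_le hab
  rw [pow_add, ← mul_assoc]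
  exact card_le_card_mul_right (hB.pow)

end

theorem structured (κ : ℝ) (hκ : 0 < κ) : ∃ τ N0 : ℝ, 0 < τ ∧ 1 ≤ N0 ∧
   ∀ (G : Type) [CommGroup G] [DecidableEq G] (A B : Finset G), B.Nonempty → N0 ≤ A.card →
     ((A * B).card : ℝ) ≤ (A.card : ℝ) ^ (1 + τ) →
     ∃ A' H : Finset G, A' ⊆ A ∧ (A.card : ℝ) ≤ 2 * A'.card ∧ B.card ≤ H.card ∧
       ((H * H).card : ℝ) ≤ (A.card : ℝ) ^ κ * H.card ∧
       ((A' * H).card : ℝ) ≤ (A.card : ℝ) ^ κ * A'.card := by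
  -- kappa' = min kappa 1
  obtain ⟨κ', hκ'0, hκ'κ, hκ'1⟩ : ∃ κ' : ℝ, 0 < κ' ∧ κ' ≤ κ ∧ κ' ≤ 1 :=
    ⟨min κ 1, lt_min hκ one_pos, min_le_left _ _, min_le_right _ _⟩
  obtain ⟨I, hI⟩ : ∃ I : ℕ, 2 / κ' < (I : ℝ) := exists_nat_gt _
  have hI' : 2 < κ' * I := by
    rw [div_lt_iff₀ hκ'0] at hI
    linarith
  set m : ℕ := 2 ^ I with hm
  have hm0 : 0 < m := by positivity
  have hmR : (0 : ℝ) < (m : ℝ) := by exact_mod_cast hm0
  refine ⟨κ' / (2 * m), (2 : ℝ) ^ (2 * (m : ℝ) / κ'), by positivity,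
    Real.one_le_rpow (by norm_num) (by positivity), ?_⟩
  intro G _ _ A B hB hN hAB
  set N : ℝ := (#A : ℝ) with hNdef
  have hN01 : (1 : ℝ) ≤ (2 : ℝ) ^ (2 * (m : ℝ) / κ') := Real.one_le_rpow (by norm_num) (by positivity)
  have hN1 : 1 ≤ N := hN01.trans hN
  have hN0 : 0 < N := by linarith
  -- 2 ^ m ≤ N ^ (kappa' / 2)
  have h2m : (2 : ℝ) ^ m ≤ N ^ (κ' / 2) := by
    have h1 : ((2 : ℝ) ^ (2 * (m : ℝ) / κ')) ^ (κ' / 2) ≤ N ^ (κ' / 2) :=
      Real.rpow_le_rpow (by positivity) hN (by positivity)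
    rw [← Real.rpow_mul (by norm_num)] at h1
    have e : 2 * (m : ℝ) / κ' * (κ' / 2) = m := by field_simp
    rw [e, Real.rpow_natCast] at h1
    exact h1
  set K : ℝ := N ^ (κ' / (2 * m)) with hKdef
  have hK0 : 0 < K := Real.rpow_pos_of_pos hN0 _
  have hKm : K ^ m = N ^ (κ' / 2) := by
    rw [hKdef, ← Real.rpow_natCast, ← Real.rpow_mul hN0.le]
    congr 1
    field_simp
  have h2K : (2 * K) ^ m ≤ N ^ κ' := by
    rw [mul_pow, hKm]
    calc (2 : ℝ) ^ m * N ^ (κ' / 2) ≤ N ^ (κ' / 2) * N ^ (κ' / 2) :=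
          mul_le_mul_of_nonneg_right h2m (by positivity)
      _ = N ^ κ' := by rw [← Real.rpow_add hN0]; congr 1; ring
  have hABK : (#(A * B) : ℝ) ≤ K * (#A : ℝ) := by
    refine hAB.trans (le_of_eq ?_)
    rw [hKdef, Real.rpow_add hN0, Real.rpow_one]
    ring
  obtain ⟨A', hA'A, hA'2, hA'le⟩ := exists_half K hABK hK0.le m
  have hA'pos : 0 < #A' := by
    have : (1 : ℕ) ≤ #A := by
      have h1 : (1 : ℝ) ≤ (#A : ℝ) := hN1
      exact_mod_cast h1
    omega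
  have hA'ne : A'.Nonempty := card_pos.1 hA'pos
  have hA'R : (0 : ℝ) < (#A' : ℝ) := by exact_mod_cast hA'pos
  have hNκ : N ^ κ' ≤ N ^ κ := Real.rpow_le_rpow_of_exponent_le hN1 hκ'κ
  have hgrow : ∀ i ≤ I, (#(A' * B ^ (2 ^ i)) : ℝ) ≤ N ^ κ * (#A' : ℝ) := by
    intro i hi
    have h1 : (#(A' * B ^ (2 ^ i)) : ℝ) ≤ (#(A' * B ^ m) : ℝ) := by
      exact_mod_cast card_mul_pow_mono hB (Nat.pow_le_pow_right (by norm_num) hi)
    refine h1.trans (hA'le.trans ?_)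
    exact mul_le_mul_of_nonneg_right (h2K.trans hNκ) hA'R.le
  -- pigeonhole
  have hpig : ∃ i < I, (#(B ^ (2 ^ (i + 1))) : ℝ) ≤ N ^ κ' * (#(B ^ (2 ^ i)) : ℝ) := by
    by_contra hcon
    push Not at hcon
    have hind : ∀ i ≤ I, (N ^ κ') ^ i ≤ (#(B ^ (2 ^ i)) : ℝ) := by
      intro i
      induction i with
      | zero =>
        intro _
        have := hB.card_pos
        simp only [pow_zero, pow_one]
        exact_mod_cast this
      | succ i ih =>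
        intro hi
        have h1 := hcon i (by omega)
        have h2 := ih (by omega)
        calc (N ^ κ') ^ (i + 1) = N ^ κ' * (N ^ κ') ^ i := by ring
          _ ≤ N ^ κ' * (#(B ^ (2 ^ i)) : ℝ) := mul_le_mul_of_nonneg_left h2 (by positivity)
          _ ≤ (#(B ^ (2 ^ (i + 1))) : ℝ) := h1.le
    have h3 := hind I le_rfl
    have h4 : (#(B ^ (2 ^ I)) : ℝ) ≤ (#(A' * B ^ m) : ℝ) := by
      have := card_le_card_mul_left (t := B ^ m) hA'ne
      exact_mod_cast this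
    have h5 : (#A' : ℝ) ≤ N := by
      rw [hNdef]
      exact_mod_cast card_le_card hA'A
    have h6 : (#(B ^ (2 ^ I)) : ℝ) ≤ N ^ (2 : ℝ) := by
      calc (#(B ^ (2 ^ I)) : ℝ) ≤ (2 * K) ^ m * (#A' : ℝ) := h4.trans hA'le
        _ ≤ N ^ κ' * N := mul_le_mul h2K h5 hA'R.le (by positivity)
        _ ≤ N ^ (1 : ℝ) * N ^ (1 : ℝ) := by
            refine mul_le_mul (Real.rpow_le_rpow_of_exponent_le hN1 hκ'1) (by rw [Real.rpow_one])
              hN0.le (by positivity)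
        _ = N ^ (2 : ℝ) := by rw [← Real.rpow_add hN0]; norm_num
    have h7 : (N ^ κ') ^ I = N ^ (κ' * I) := by
      rw [← Real.rpow_natCast, ← Real.rpow_mul hN0.le]
    rw [h7] at h3
    -- N > 1
    have hNgt : 1 < N := by
      refine lt_of_lt_of_le ?_ hN
      exact Real.one_lt_rpow (by norm_num) (by positivity)
    have h8 : N ^ (2 : ℝ) < N ^ (κ' * I) := Real.rpow_lt_rpow_of_exponent_lt hNgt hI'
    linarith
  obtain ⟨i, hiI, hi⟩ := hpig
  refine ⟨A', B ^ (2 ^ i), hA'A, ?_, ?_, ?_, hgrow i hiI.le⟩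
  · rw [hNdef]
    exact_mod_cast hA'2
  · have := card_mul_pow_mono (A := (1 : Finset G)) hB (a := 1) (b := 2 ^ i) (Nat.one_le_two_pow)
    simpa using this
  · have e : B ^ (2 ^ i) * B ^ (2 ^ i) = B ^ (2 ^ (i + 1)) := by
      rw [← pow_add]
      congr 1
      ring
    rw [e]
    exact hi.trans (mul_le_mul_of_nonneg_right hNκ (by positivity))

end Pool.Agent.Helper28.GPP
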